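import Pool.Agent.MP_bd9604_nt.Mg.Inf_Final

namespace Pool.Agent.Results.MP_bd9604_nt.Full

open Pool.Agent.KExp

theorem result : ∃ c : ℝ, IsLeast (bases 1) c ∧
    ∀ k : ℕ, 2 ≤ k → IsGLB (bases k) c ∧ c ∉ bases k := by
  obtain ⟨c, h1, h2, h3⟩ := KL_full
  have low : ∀ k : ℕ, c ∈ lowerBounds (bases k) := fun k q hq => by
    by_contra hc
    push Not at hc
    have := h2 q hq.1 hc
    rw [hq.2.2] at this
    exact ENat.coe_ne_top k this
  refine ⟨c, ⟨h1, low 1⟩, fun k hk => ⟨⟨low k, fun b hb => ?_⟩, fun h => ?_⟩⟩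
  · refine le_of_forall_pos_le_add fun ε hε => ?_
    obtain ⟨q, hq, -, hq2⟩ := h3 k hk ε hε
    exact (hb hq).trans hq2.le
  · have := h.2.2
    rw [h1.2.2] at this
    have e : 1 = k := by exact_mod_cast this
    omega

end Pool.Agent.Results.MP_bd9604_nt.Full
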